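import Pool.Agent.helper12.DD.Spec

/-! DVD: the degree of an irreducible character divides the order of the group. -/

set_option autoImplicit false

open Pool.Agent.helper49.Blk

namespace Pool.Agent.DD

theorem DVD (hC : INC_stmt) (hN : INN_stmt) (hF : IRF_stmt) : DVD_stmt := by
  classical
  intro G _ _ χ hχ n hn
  have : Fintype G := Fintype.ofFinite G
  have : Fintype (ConjClasses G) := Fintype.ofFinite _
  have hn0 : n ≠ 0 := by
    obtain ⟨m, hm, hm'⟩ := ((hF G).2 χ hχ).1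
    rw [hn] at hm'
    have : n = m := by exact_mod_cast hm'
    omega
  have hnC : (n : ℂ) ≠ 0 := by exact_mod_cast hn0
  have hconj : ∀ g h, IsConj g h → χ g = χ h := by
    intro g h hgh
    obtain ⟨c, rfl⟩ := isConj_iff.mp hgh
    exact (((hF G).2 χ hχ).2 g c).symm
  have h1 : ∑ g : G, χ g * χ g⁻¹ = (Nat.card G : ℂ) := by
    obtain ⟨V, _, _, _, ρ, hρ, rfl⟩ := hχ
    exact (orth ρ ρ hρ hρ).2 rfl
  have h2 := sum_class (fun g : G => χ g * χ g⁻¹) (fun g h hgh => by
    have h3 : IsConj g⁻¹ h⁻¹ := by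
      obtain ⟨c, rfl⟩ := isConj_iff.mp hgh
      exact isConj_iff.mpr ⟨c, by group⟩
    rw [hconj g h hgh, hconj _ _ h3])
  rw [h1] at h2
  have h4 : (Nat.card G : ℂ) / n = ∑ K : ConjClasses G, omega χ K.out * χ (K.out)⁻¹ := by
    rw [h2, Finset.sum_div]
    refine Finset.sum_congr rfl fun K _ => ?_
    unfold omega
    rw [hn]
    ring
  have h5 : IsIntegral ℤ ((Nat.card G : ℂ) / n) := by
    rw [h4]
    refine IsIntegral.sum _ fun K _ => ?_
    exact ((hN G).1 χ hχ _).mul (hC G χ hχ _)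
  have h6 : IsIntegral ℤ ((Nat.card G : ℚ) / n) := by
    have h7 : (Nat.card G : ℂ) / n = algebraMap ℚ ℂ ((Nat.card G : ℚ) / n) := by simp
    rw [h7, isIntegral_algebraMap_iff (algebraMap ℚ ℂ).injective] at h5
    exact h5
  obtain ⟨z, hz⟩ := IsIntegrallyClosed.isIntegral_iff.mp h6
  have h8 : (Nat.card G : ℚ) = z * n := by
    have h9 : (n : ℚ) ≠ 0 := by exact_mod_cast hn0
    have h10 : (z : ℚ) = (Nat.card G : ℚ) / n := by
      rw [← hz]; simp
    rw [h10, div_mul_cancel₀ _ h9]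
  have h11 : (Nat.card G : ℤ) = z * n := by exact_mod_cast h8
  have h12 : (n : ℤ) ∣ (Nat.card G : ℤ) := ⟨z, by rw [h11]; ring⟩
  exact_mod_cast h12

end Pool.Agent.DD
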