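import Pool.Agent.helper12.DD.Spec

/-! INC: character values are algebraic integers. -/

set_option autoImplicit false

open Pool.Agent.helper49.Blk

namespace Pool.Agent.DD

theorem INC : INC_stmt := by
  classical
  intro G _ _ χ hχ g
  obtain ⟨V, _, _, _, ρ, hρ, rfl⟩ := hχ
  unfold Representation.character
  let b := Module.finBasis ℂ V
  rw [LinearMap.trace_eq_matrix_trace ℂ b, Matrix.trace_eq_sum_roots_charpoly]
  refine IsIntegral.multiset_sum ?_
  intro μ hμ
  have h1 : (LinearMap.toMatrix b b (ρ g)).charpoly = (ρ g).charpoly := by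
    exact LinearMap.charpoly_toMatrix (ρ g) b
  rw [h1] at hμ
  have h2 := (Polynomial.mem_roots'.mp hμ).2
  have h3 : Module.End.HasEigenvalue (ρ g) μ := by
    rw [Module.End.hasEigenvalue_iff_isRoot_charpoly]
    exact h2
  obtain ⟨v, hv⟩ := h3.exists_hasEigenvector
  have h4 : ∀ n : ℕ, ((ρ g) ^ n) v = μ ^ n • v := fun n => hv.pow_apply n
  have h5 : μ ^ (Nat.card G) = 1 := by
    have h6 := h4 (Nat.card G)
    rw [← map_pow, pow_card_eq_one', map_one] at h6
    have h7 : (1 - μ ^ Nat.card G) • v = 0 := by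
      rw [sub_smul, one_smul, ← h6]
      simp
    rcases smul_eq_zero.mp h7 with h8 | h8
    · exact (sub_eq_zero.mp h8).symm
    · exact absurd h8 hv.2
  refine ⟨Polynomial.X ^ (Nat.card G) - 1, ?_, ?_⟩
  · exact Polynomial.monic_X_pow_sub_C (1 : ℤ) Nat.card_pos.ne'
  · simp [h5]

end Pool.Agent.DD
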