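import Pool.Agent.helper12.DD.Spec

/-! INN: central characters take algebraic integer values. -/

set_option autoImplicit false

open Pool.Agent.helper49.Blk

namespace Pool.Agent.DD

theorem INN (hT : INT_stmt) (hF : IRF_stmt) : INN_stmt := by
  classical
  intro G _ _
  have : Fintype G := Fintype.ofFinite G
  refine ⟨?_, ?_⟩
  · intro χ hχ g
    have h1 := hT G χ hχ (conjugatesOf g) (fun x hx h => by
      rw [conjugatesOf, Set.mem_ofPred_eq] at hx ⊢
      exact hx.trans (isConj_iff.2 ⟨h, rfl⟩))
    have h2 : ∑ᶠ x ∈ conjugatesOf g, χ x = (Nat.card (conjugatesOf g) : ℂ) * χ g := by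
      have h3 : ∀ x ∈ conjugatesOf g, χ x = χ g := by
        intro x hx
        obtain ⟨c, rfl⟩ := isConj_iff.mp (show IsConj g x from hx)
        exact ((hF G).2 χ hχ).2 g c
      rw [finsum_mem_congr rfl h3, finsum_mem_eq_toFinset_sum, Finset.sum_const, nsmul_eq_mul]
      congr 2
      rw [Nat.card_eq_fintype_card, Set.toFinset_card]
    rw [h2] at h1
    exact h1
  · intro N ψ hψ g
    unfold omInd
    refine hT N ψ hψ {x : N | IsConj g (x : G)} ?_
    intro x hx h
    have hx' : IsConj g (x : G) := hx
    change IsConj g ((h * x * h⁻¹ : N) : G)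
    refine hx'.trans (isConj_iff.2 ⟨(h : G), ?_⟩)
    simp

end Pool.Agent.DD
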