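import Pool.Agent.helper12.DD.Spec

/-! INT: normalised sums of an irreducible character over invariant sets are algebraic integers. -/

set_option autoImplicit false

open Pool.Agent.helper49.Blk

namespace Pool.Agent.DD

theorem INT_scalar (H : Type) [Group H] [Finite H] (V : Type) [AddCommGroup V] [Module ℂ V]
    [FiniteDimensional ℂ V] (ρ : Representation ℂ H V) (hirr : ρ.IsIrreducible) (K : Finset H)
    (hK : ∀ x h : H, h ∈ K ↔ x * h * x⁻¹ ∈ K) :
    IsIntegral ℤ ((∑ h ∈ K, ρ.character h) / ρ.character 1) := by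
  classical
  have hint : IsIntegral ℤ (∑ h ∈ K, ρ h : Module.End ℂ V) := by
    have hz : IsIntegral ℤ (∑ h ∈ K, MonoidAlgebra.of ℤ H h) := IsIntegral.of_finite ℤ _
    have h2 := hz.map (MonoidAlgebra.lift ℤ (Module.End ℂ V) H ρ)
    rw [map_sum] at h2
    convert h2 using 2 with h hh
    simp
  have hcomm : ∀ x : H, (∑ h ∈ K, ρ h : Module.End ℂ V) ∘ₗ ρ x =
      ρ x ∘ₗ (∑ h ∈ K, ρ h : Module.End ℂ V) := by
    intro x
    show (∑ h ∈ K, ρ h : Module.End ℂ V) * ρ x = ρ x * (∑ h ∈ K, ρ h : Module.End ℂ V)
    rw [Finset.sum_mul, Finset.mul_sum]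
    symm
    refine Finset.sum_equiv (MulAut.conj x).toEquiv (fun h => ?_) (fun h _ => ?_)
    · simpa using hK x h
    · rw [← map_mul, ← map_mul]
      simp
  have hsch := Representation.IsIrreducible.algebraMap_intertwiningMap_bijective_of_isAlgClosed
    (ρ := ρ)
  obtain ⟨c, hc⟩ := hsch.2 ⟨(∑ h ∈ K, ρ h : Module.End ℂ V), hcomm⟩
  have hc' : (∑ h ∈ K, ρ h : Module.End ℂ V) = c • (1 : Module.End ℂ V) := by
    have h3 := congrArg Representation.IntertwiningMap.toLinearMap hc
    rw [Representation.IntertwiningMap.algebraMap_apply] at h3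
    exact h3.symm
  have htr : ∑ h ∈ K, ρ.character h = c * ρ.character 1 := by
    have h4 := congrArg (LinearMap.trace ℂ V) hc'
    rw [map_sum, map_smul, smul_eq_mul] at h4
    have h5 : ρ.character 1 = LinearMap.trace ℂ V (1 : Module.End ℂ V) := by
      unfold Representation.character
      rw [map_one]
    rw [h5, ← h4]
    rfl
  rw [htr]
  by_cases h0 : ρ.character 1 = 0
  · rw [h0, mul_zero, zero_div]
    exact isIntegral_zero
  · rw [mul_div_cancel_right₀ _ h0]
    have hnt : Nontrivial V := by
      by_contra hV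
      rw [not_nontrivial_iff_subsingleton] at hV
      apply h0
      rw [Representation.char_one]
      have := Module.finrank_zero_of_subsingleton (R := ℂ) (M := V)
      rw [this]
      simp
    rw [hc'] at hint
    have h6 : (c • (1 : Module.End ℂ V)) = IsScalarTower.toAlgHom ℤ ℂ (Module.End ℂ V) c := by
      rw [IsScalarTower.toAlgHom_apply, Algebra.algebraMap_eq_smul_one]
    rw [h6, isIntegral_algHom_iff] at hint
    · exact hint
    · intro a b hab
      exact FaithfulSMul.algebraMap_injective ℂ (Module.End ℂ V) hab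

theorem INT : INT_stmt := by
  classical
  intro G _ _ χ hχ S hS
  obtain ⟨V, _, _, _, ρ, hρ, rfl⟩ := hχ
  have : Fintype G := Fintype.ofFinite G
  have key := INT_scalar G V ρ hρ S.toFinset (fun x h => by
    simp only [Set.mem_toFinset]
    constructor
    · intro h1
      exact hS h h1 x
    · intro h1
      have h2 := hS _ h1 x⁻¹
      have h3 : x⁻¹ * (x * h * x⁻¹) * x⁻¹⁻¹ = h := by group
      rwa [h3] at h2)
  rw [finsum_mem_eq_toFinset_sum]
  exact key

end Pool.Agent.DD
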