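import Pool.Agent.helper12.DD.Spec

/-! NRM: a representation whose character has norm 1 is irreducible. -/

set_option autoImplicit false

open Pool.Agent.helper49.Blk

namespace Pool.Agent.DD

open scoped MonoidAlgebra

theorem NRM : NRM_stmt := by
  classical
  intro G _ _ V _ _ _ ρ h
  have hne : (Nat.card G : ℂ) ≠ 0 := by exact_mod_cast Nat.card_pos.ne'
  have hinv : Invertible (Nat.card G : ℂ) := invertibleOfNonzero hne
  have h1 := Representation.card_inv_mul_sum_char_mul_char_eq_finrank ρ ρ
  rw [h, inv_mul_cancel₀ hne] at h1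
  have h2 : Module.finrank ℂ (Representation.IntertwiningMap ρ ρ) = 1 := by
    exact_mod_cast h1.symm
  have hnt : Nontrivial V := by
    by_contra hV
    rw [not_nontrivial_iff_subsingleton] at hV
    have h3 : Subsingleton (Representation.IntertwiningMap ρ ρ) := by
      refine ⟨fun f g => ?_⟩
      apply Representation.IntertwiningMap.ext
      exact Subsingleton.elim _ _
    rw [Module.finrank_zero_of_subsingleton] at h2
    exact zero_ne_one h2
  have hid : Representation.IntertwiningMap.id ρ ≠ 0 := by
    intro h0
    obtain ⟨v, hv⟩ := exists_ne (0 : V)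
    have := congrArg (fun f : Representation.IntertwiningMap ρ ρ => f v) h0
    exact hv this
  have h3 := (finrank_eq_one_iff_of_nonzero' (Representation.IntertwiningMap.id ρ) hid).mp h2
  rw [Representation.irreducible_iff_isSimpleModule_asModule, isSimpleModule_iff]
  have hnt' : Nontrivial ρ.asModule := hnt
  have hnz : NeZero (Nat.card G : ℂ) := ⟨hne⟩
  refine { exists_pair_ne := ⟨⊥, ⊤, bot_ne_top⟩, eq_bot_or_eq_top := ?_ }
  intro N
  obtain ⟨N', hN⟩ := MonoidAlgebra.Submodule.exists_isCompl (k := ℂ) (G := G) N
  let P : ρ.asModule →ₗ[ℂ[G]] ρ.asModule := N.subtype ∘ₗ N.projectionOnto N' hN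
  obtain ⟨c, hc⟩ := h3 ((Representation.IntertwiningMap.equivLinearMapAsModule ρ ρ).symm P)
  have hP : ∀ v : V, (P v : V) = c • v := by
    intro v
    have := congrArg (fun f : Representation.IntertwiningMap ρ ρ => f v) hc
    exact this.symm
  by_cases hc0 : c = 0
  · left
    rw [eq_bot_iff]
    intro x hx
    have h5 : P x = x := by
      change ((N.projectionOnto N' hN x : N) : ρ.asModule) = x
      have := Submodule.projectionOnto_apply_left hN ⟨x, hx⟩
      rw [this]
    have h6 := hP x
    rw [hc0, zero_smul] at h6
    rw [h5] at h6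
    rw [Submodule.mem_bot]
    exact h6
  · right
    rw [eq_top_iff]
    intro x _
    have h6 := hP (c⁻¹ • (show V from x))
    rw [smul_smul, mul_inv_cancel₀ hc0, one_smul] at h6
    have h7 : P (show ρ.asModule from (c⁻¹ • (show V from x))) ∈ N :=
      (N.projectionOnto N' hN _).2
    rw [show x = P (show ρ.asModule from (c⁻¹ • (show V from x))) from h6.symm]
    exact h7

end Pool.Agent.DD
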